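import Mathlib
import Pool.Agent.H57.QMult

namespace Pool.Agent.Results.MP_cbe697_nt.Holds

/-- sum of the r-th powers of the multinomial coefficients over all m-tuples with sum k -/
def M (m k r : ℕ) : ℤ :=
  ∑ f ∈ Finset.Nat.antidiagonalTuple m k, (Nat.multinomial Finset.univ f : ℤ) ^ r

/-- For all m, n at least 1 and all r, the weighted sum is divisible by m n. -/
theorem result : ∀ m n r : ℕ, 1 ≤ m → 1 ≤ n →
    ((m : ℤ) * n) ∣ ∑ k ∈ Finset.range n, (-1) ^ (r * k) * (((m : ℤ) + 1) * k + m) * M m k r := by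
  intro m n r hm hn
  have h := Pool.Agent.H57.QMult.main m n r hm hn
  rw [Nat.cast_mul] at h
  exact h

end Pool.Agent.Results.MP_cbe697_nt.Holds
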